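import Pool.Agent.H91.Stretch

set_option autoImplicit false

open H91.Stretch in
theorem Pool.Agent.Results.MP_adfebc_an.Rectifiable.result (n m : ℕ)
    (f : EuclideanSpace ℝ (Fin n) → EuclideanSpace ℝ (Fin m))
    (hf : ∃ K, LipschitzWith K f) (hc : ∃ x y, f x ≠ f y) :
    ∃ (ψ : EuclideanSpace ℝ (Fin (n + m)) → EuclideanSpace ℝ (Fin n) × EuclideanSpace ℝ (Fin n))
      (K : NNReal), LipschitzWith K ψ ∧
      {p : EuclideanSpace ℝ (Fin n) × EuclideanSpace ℝ (Fin n) |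
        ‖f p.1 - f p.2‖ = Lip f * ‖p.1 - p.2‖} ⊆ Set.range ψ :=
  main n m f hf hc
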